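import Pool.Agent.Helper84_TMP.Stmt

/-! # LIN: the rank one lines (module LIN, MP_eadad4_nt, squad TMP) -/

set_option autoImplicit false

namespace Pool.Agent.TMP.H47

open Pool.Agent.DEN Pool.Agent.TMP

/-! ## The field -/

section
variable {K : Type} [Field K]

theorem one_not_mem : (1 : FF K) ∉ Bd K (-1) := by
  intro h
  have h1 := h 0 (by norm_num)
  simp at h1

/-- The inverse of an element of degree exactly `m`. -/
theorem inv_mem {m : ℤ} {a : FF K} (h : a ∈ Bd K m) (h' : a ∉ Bd K (m - 1)) :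
    a ≠ 0 ∧ a⁻¹ ∈ Bd K (-m) := by
  have hF := H22.hF1 K
  have ha : a ≠ 0 := by
    rintro rfl
    exact h' (hF.1 _)
  refine ⟨ha, ?_⟩
  obtain ⟨m', u, hau, hu, hui, hu0, hn⟩ := hF.2.2.2.2.2.2.2.2 a ha
  have h1 : a ∈ Bd K m' := by
    rw [hau]
    exact (hF.2.2.2.2.2.2.2.1 m' u).mpr hu
  have h2 : m' = m := by
    rcases lt_trichotomy m' m with h3 | h3 | h3
    · exact absurd (hF.2.2.2.2.1 _ _ _ (by omega) h1) h'
    · exact h3
    · exact absurd (hF.2.2.2.2.1 _ _ _ (by omega) h) hn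
  subst h2
  rw [hau, mul_inv, ← zpow_neg]
  exact (hF.2.2.2.2.2.2.2.1 (-m') _).mpr hui

/-- Every element of `F` which is not in `Bd n` has a degree greater than `n`. -/
theorem exists_deg (n : ℤ) {a : FF K} (h : a ∉ Bd K n) :
    ∃ m : ℤ, n < m ∧ a ∈ Bd K m ∧ a ∉ Bd K (m - 1) := by
  have hF := H22.hF1 K
  have ha : a ≠ 0 := by
    rintro rfl
    exact h (hF.1 _)
  obtain ⟨m, u, hau, hu, hui, hu0, hn⟩ := hF.2.2.2.2.2.2.2.2 a ha
  have h1 : a ∈ Bd K m := by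
    rw [hau]
    exact (hF.2.2.2.2.2.2.2.1 m u).mpr hu
  refine ⟨m, ?_, h1, hn⟩
  by_contra h2
  exact h (hF.2.2.2.2.1 _ _ _ (by omega) h1)

/-- `1 - a` is a unit if `a` has negative degree. -/
theorem unit_sub {a : FF K} (h : a ∈ Bd K (-1)) :
    1 - a ≠ 0 ∧ 1 - a ∈ Bd K 0 ∧ (1 - a)⁻¹ ∈ Bd K 0 := by
  have hF := H22.hF1 K
  have h1 : (1 : FF K) ∈ Bd K 0 := by
    have := hF.2.2.2.2.2.1 1
    simpa using this
  have h2 : 1 - a ∈ Bd K 0 := by
    rw [sub_eq_add_neg]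
    exact hF.2.1 _ _ _ h1 (hF.2.2.1 _ _ (hF.2.2.2.2.1 _ _ _ (by norm_num) h))
  have h3 : 1 - a ∉ Bd K (0 - 1) := by
    intro h4
    apply one_not_mem (K := K)
    have h5 := hF.2.1 _ _ _ h4 h
    rwa [sub_add_cancel] at h5
  have h4 := inv_mem h2 h3
  exact ⟨h4.1, h2, by simpa using h4.2⟩

end

/-! ## Groups -/

theorem stab_closure {G X : Type} [Group G] [MulAction G X] (S : Set G) (Y : Set X)
    (hinv : ∀ g ∈ S, g⁻¹ ∈ S) (h : ∀ g ∈ S, ∀ y ∈ Y, g • y ∈ Y) :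
    ∀ j ∈ Subgroup.closure S, ∀ y ∈ Y, j • y ∈ Y := by
  intro j hj
  have key : (∀ y ∈ Y, j • y ∈ Y) ∧ (∀ y ∈ Y, j⁻¹ • y ∈ Y) := by
    induction hj using Subgroup.closure_induction with
    | mem x hx => exact ⟨h x hx, h _ (hinv x hx)⟩
    | one => simp
    | mul x y _ _ hx hy =>
      refine ⟨fun z hz => ?_, fun z hz => ?_⟩
      · rw [mul_smul]
        exact hx.1 _ (hy.1 _ hz)
      · rw [mul_inv_rev, mul_smul]
        exact hy.2 _ (hx.2 _ hz)
    | inv x _ hx => exact ⟨hx.2, by simpa using hx.1⟩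
  exact key.1

section

variable {r : ℕ} {C : Matrix (Fin r) (Fin r) ℤ} {K : Type} [Field K] (hC : SimplyLaced C)

include hC

omit [Field K] in
theorem ip_al_self (i : Fin r) : ip C (al i) (al i) = 2 := by
  rw [ip_al_al, hC.diag]

omit [Field K] in
theorem ip_sf (i : Fin r) (l : Fin r → ℤ) : ip C (al i) (sf C i l) = - ip C (al i) l := by
  unfold sf
  rw [ip_sub_right, ip_smul_right, ip_al_self hC]
  ring

omit [Field K] in
theorem sf_sf (i : Fin r) (l : Fin r → ℤ) : sf C i (sf C i l) = l := by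
  have h := ip_sf hC i l
  have h1 : sf C i (sf C i l) = sf C i l - ip C (al i) (sf C i l) • al i := rfl
  rw [h1, h]
  unfold sf
  rw [neg_smul]
  abel

/-- The diagonal elements with unit entries fix the points `t^l o`. -/
theorem dg_tp (i : Fin r) {u : FF K} (h0 : u ≠ 0) (h1 : u ∈ Bd K 0) (h2 : u⁻¹ ∈ Bd K 0)
    (l : Fin r → ℤ) :
    (wg hC (hC.sr i) u * (wg hC (hC.sr i) (1 : FF K))⁻¹) • tp hC K l = tp hC K l := by
  have h3 : (wg hC (hC.sr i) u * (wg hC (hC.sr i) (1 : FF K))⁻¹) * tg hC K l =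
      tg hC K l * (wg hC (hC.sr i) u * (wg hC (hC.sr i) (1 : FF K))⁻¹) := by
    apply grp_ext
    intro v
    have e1 := H22.relH r C hC K (hC.sr i) u h0
    have e2 := isTor_tg (K := K) hC l
    have e3 : ∀ g g' : grp C K, (g * g').1 v = g.1 (g'.1 v) := fun _ _ => rfl
    rw [e3 _ (tg hC K l), e3 (tg hC K l), e1, e2, e2, e1]
    refine Prod.ext rfl (funext fun γ => ?_)
    simp only
    ring
  rw [← tp_smul, ← mul_smul, h3, mul_smul,
    (mem_maxK_iff _).mp ((H22.hMax r C hC K).2.2.1 (hC.sr i) u h0 h1 h2)]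

theorem wi_xi (i : Fin r) (a : FF K) : wi hC K i * xi hC i a = yi hC i a * wi hC K i := by
  have h := (H22.relC r C hC K (hC.sr i) (1 : FF K) one_ne_zero a).1
  rw [one_pow, inv_one, one_mul] at h
  rw [wi, xi, yi, ← h]
  group

theorem wi_yi (i : Fin r) (a : FF K) : wi hC K i * yi hC i a = xi hC i a * wi hC K i := by
  have h := (H22.relC r C hC K (hC.sr i) (1 : FF K) one_ne_zero a).2.1
  rw [one_pow, one_mul] at h
  rw [wi, xi, yi, ← h]
  group

/-- `w_i ^ 2` fixes the points `x_i(b) t^l o`. -/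
theorem wi_wi (i : Fin r) (b : FF K) (l : Fin r → ℤ) :
    wi hC K i • wi hC K i • xi hC i b • tp hC K l = xi hC i b • tp hC K l := by
  rw [← mul_smul (wi hC K i) (xi hC i b), wi_xi, mul_smul, ← mul_smul (wi hC K i) (yi hC i b),
    wi_yi, mul_smul, wi_tp, wi_tp, sf_sf hC]

theorem wi_inv (i : Fin r) (b : FF K) (l : Fin r → ℤ) :
    (wi hC K i)⁻¹ • xi hC i b • tp hC K l = wi hC K i • xi hC i b • tp hC K l := by
  rw [inv_smul_eq_iff, wi_wi]

/-- The element `x_{-i}(c)` maps `x_i(b) t^l o` to a point of the same form. -/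
theorem yi_P (hSlt : SltStmt) (i : Fin r) {b c : FF K} {l : Fin r → ℤ} (hbc : c * b ∈ Bd K (-1))
    (hc : c / (1 - c * b) ∈ Bd K (- ip C (al i) l)) :
    yi hC i c • xi hC i b • tp hC K l = xi hC i (b / (1 - c * b)) • tp hC K l := by
  obtain ⟨h0, h1, h2⟩ := unit_sub hbc
  have h3 := hSlt r C hC K (hC.sr i) c b h0
  have h4 : yi hC i c * xi hC i b = xi hC i (b / (1 - c * b)) *
      (wg hC (hC.sr i) (1 - c * b)⁻¹ * (wg hC (hC.sr i) (1 : FF K))⁻¹) *
        yi hC i (c / (1 - c * b)) := h3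
  rw [← mul_smul, h4, mul_smul, mul_smul]
  have h5 : yi hC i (c / (1 - c * b)) • tp hC K l = tp hC K l := by
    refine xg_tp hC l (hC.sr i).neg ?_
    have h6 : ip C (hC.sr i).neg.1 l = - ip C (al i) l := ip_neg_left _ _ _
    rw [h6]
    exact hc
  rw [h5, dg_tp hC i (inv_ne_zero h0) h2 (by rwa [inv_inv])]

/-- The part 1. -/
theorem partY (hSlt : SltStmt) (i : Fin r) (l : Fin r → ℤ) (hl : ip C (al i) l ≤ 0) :
    {y : XX C K | ∃ j ∈ Ii hC K i, y = j • tp hC K l} =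
        {y | ∃ b ∈ Bd K 0, y = xi hC i b • tp hC K l} := by
  have hF := H22.hF1 K
  apply Set.Subset.antisymm
  · rintro y ⟨j, hj, rfl⟩
    refine stab_closure _ {y : XX C K | ∃ b ∈ Bd K 0, y = xi hC i b • tp hC K l} ?_ ?_ j hj _ ?_
    · rintro g (⟨a, ha, rfl⟩ | ⟨a, ha, rfl⟩)
      · exact Or.inl ⟨-a, hF.2.2.1 _ _ ha, xg_inv hC _ _⟩
      · exact Or.inr ⟨-a, hF.2.2.1 _ _ ha, xg_inv hC _ _⟩
    · rintro g (⟨a, ha, rfl⟩ | ⟨a, ha, rfl⟩) y ⟨b, hb, rfl⟩
      · refine ⟨a + b, hF.2.1 _ _ _ ha hb, ?_⟩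
        rw [← mul_smul]
        congr 1
        exact (xg_add hC _ _ _).symm
      · have h1 : a * b ∈ Bd K (-1) := by
          have := hF.2.2.2.1 _ _ _ _ ha hb
          simpa using this
        obtain ⟨h2, h3, h4⟩ := unit_sub h1
        refine ⟨b / (1 - a * b), ?_, yi_P hC hSlt i h1 ?_⟩
        · have := hF.2.2.2.1 _ _ _ _ hb h4
          simpa [div_eq_mul_inv] using this
        · have := hF.2.2.2.1 _ _ _ _ ha h4
          rw [div_eq_mul_inv]
          exact hF.2.2.2.2.1 _ _ _ (by omega) this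
    · refine ⟨0, hF.1 _, ?_⟩
      have : xi hC i (0 : FF K) = 1 := xg_zero hC _
      rw [this, one_smul]
  · rintro y ⟨b, hb, rfl⟩
    exact ⟨xi hC i b, Subgroup.subset_closure (Or.inl ⟨b, hb, rfl⟩), rfl⟩

/-- The part 2. -/
theorem partY' (hSlt : SltStmt) (i : Fin r) (l : Fin r → ℤ) (hl : ip C (al i) l ≤ 0) :
    {y : XX C K | ∃ j ∈ Ii hC K i, y = j • tp hC K (sf C i l)} =
        {y | ∃ b ∈ Bd K (-1), y = wi hC K i • xi hC i b • tp hC K l} := by
  have hF := H22.hF1 K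
  apply Set.Subset.antisymm
  · rintro y ⟨j, hj, rfl⟩
    refine stab_closure _ {y : XX C K | ∃ b ∈ Bd K (-1), y = wi hC K i • xi hC i b • tp hC K l}
      ?_ ?_ j hj _ ?_
    · rintro g (⟨a, ha, rfl⟩ | ⟨a, ha, rfl⟩)
      · exact Or.inl ⟨-a, hF.2.2.1 _ _ ha, xg_inv hC _ _⟩
      · exact Or.inr ⟨-a, hF.2.2.1 _ _ ha, xg_inv hC _ _⟩
    · rintro g (⟨a, ha, rfl⟩ | ⟨a, ha, rfl⟩) y ⟨b, hb, rfl⟩
      · have h1 : a * b ∈ Bd K (-1) := by
          have := hF.2.2.2.1 _ _ _ _ ha hb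
          simpa using this
        obtain ⟨h2, h3, h4⟩ := unit_sub h1
        refine ⟨b / (1 - a * b), ?_, ?_⟩
        · have := hF.2.2.2.1 _ _ _ _ hb h4
          simpa [div_eq_mul_inv] using this
        · rw [← mul_smul (xi hC i a), ← wi_yi, mul_smul]
          congr 1
          refine yi_P hC hSlt i h1 ?_
          have := hF.2.2.2.1 _ _ _ _ ha h4
          rw [div_eq_mul_inv]
          exact hF.2.2.2.2.1 _ _ _ (by omega) this
      · refine ⟨a + b, hF.2.1 _ _ _ ha hb, ?_⟩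
        rw [← mul_smul (yi hC i a), ← wi_xi, mul_smul]
        congr 1
        rw [← mul_smul]
        congr 1
        exact (xg_add hC _ _ _).symm
    · refine ⟨0, hF.1 _, ?_⟩
      have : xi hC i (0 : FF K) = 1 := xg_zero hC _
      rw [this, one_smul, wi_tp]
  · rintro y ⟨b, hb, rfl⟩
    refine ⟨yi hC i b, Subgroup.subset_closure (Or.inr ⟨b, hb, rfl⟩), ?_⟩
    rw [← mul_smul, wi_xi, mul_smul, wi_tp]

/-- The part 3. -/
theorem partW (i : Fin r) (l : Fin r → ℤ) (hl : ip C (al i) l ≤ 0) {y : XX C K}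
    (hy : (∃ b ∈ Bd K 0, y = xi hC i b • tp hC K l) ∨
      (∃ b ∈ Bd K (-1), y = wi hC K i • xi hC i b • tp hC K l)) :
    ((∃ b ∈ Bd K 0, wi hC K i • y = xi hC i b • tp hC K l) ∨
      (∃ b ∈ Bd K (-1), wi hC K i • y = wi hC K i • xi hC i b • tp hC K l)) ∧
    ((∃ b ∈ Bd K 0, (wi hC K i)⁻¹ • y = xi hC i b • tp hC K l) ∨
      (∃ b ∈ Bd K (-1), (wi hC K i)⁻¹ • y = wi hC K i • xi hC i b • tp hC K l)) := by
  have hF := H22.hF1 K
  rcases hy with ⟨b, hb, rfl⟩ | ⟨b, hb, rfl⟩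
  · rw [wi_inv]
    have key : (∃ b' ∈ Bd K 0, wi hC K i • xi hC i b • tp hC K l = xi hC i b' • tp hC K l) ∨
      (∃ b' ∈ Bd K (-1), wi hC K i • xi hC i b • tp hC K l =
        wi hC K i • xi hC i b' • tp hC K l) := by
      by_cases h1 : b ∈ Bd K (-1)
      · exact Or.inr ⟨b, h1, rfl⟩
      · rcases hl.lt_or_eq with h2 | h2
        · left
          have h3 := inv_mem (m := 0) hb (by simpa using h1)
          refine ⟨-b⁻¹, hF.2.2.1 _ _ (by simpa using h3.2), ?_⟩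
          have h4 := rk1 hC i l (b := b) (m := 0) h2 hb (by simpa using h1)
          rwa [zero_smul, sub_zero] at h4
        · right
          refine ⟨0, hF.1 _, ?_⟩
          have h3 : xi hC i b • tp hC K l = tp hC K l := by
            refine xg_tp hC l (hC.sr i) ?_
            have : ip C (hC.sr i).1 l = 0 := h2
            rw [this]
            exact hb
          have h4 : xi hC i (0 : FF K) = 1 := xg_zero hC _
          rw [h3, h4, one_smul]
    exact ⟨key, key⟩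
  · have h1 : b ∈ Bd K 0 := hF.2.2.2.2.1 _ _ _ (by norm_num) hb
    refine ⟨Or.inl ⟨b, h1, wi_wi hC i b l⟩, Or.inl ⟨b, h1, ?_⟩⟩
    rw [inv_smul_smul]

/-- The part 4. -/
theorem partE (i : Fin r) (b : FF K) (m : Fin r → ℤ) : ∃ l : Fin r → ℤ, ip C (al i) l ≤ 0 ∧
      ((∃ b' ∈ Bd K 0, xi hC i b • tp hC K m = xi hC i b' • tp hC K l) ∨
        (∃ b' ∈ Bd K (-1), xi hC i b • tp hC K m = wi hC K i • xi hC i b' • tp hC K l)) := by
  have hF := H22.hF1 K
  by_cases hb : b ∈ Bd K (max 0 (ip C (al i) m))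
  · by_cases hn : ip C (al i) m ≤ 0
    · rw [max_eq_left hn] at hb
      exact ⟨m, hn, Or.inl ⟨b, hb, rfl⟩⟩
    · have hn' : 0 ≤ ip C (al i) m := by omega
      rw [max_eq_right hn'] at hb
      refine ⟨sf C i m, by rw [ip_sf hC]; omega, Or.inr ⟨0, hF.1 _, ?_⟩⟩
      have h3 : xi hC i b • tp hC K m = tp hC K m := xg_tp hC m (hC.sr i) hb
      have h4 : xi hC i (0 : FF K) = 1 := xg_zero hC _
      rw [h3, h4, one_smul, wi_tp, sf_sf hC]
  · obtain ⟨p, hp, h1, h2⟩ := exists_deg _ hb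
    have hp0 : 0 < p := lt_of_le_of_lt (le_max_left _ _) hp
    have hpn : ip C (al i) m < p := lt_of_le_of_lt (le_max_right _ _) hp
    have h3 := rk1 hC i m hpn h1 h2
    have h4 := inv_mem h1 h2
    refine ⟨m - p • al i, ?_, Or.inr ⟨-b⁻¹, ?_, ?_⟩⟩
    · rw [ip_sub_right, ip_smul_right, ip_al_self hC]
      omega
    · exact hF.2.2.1 _ _ (hF.2.2.2.2.1 _ _ _ (by omega) h4.2)
    · rw [← h3, wi_wi]

end

/-- **LIN** -/
theorem lin (hSlt : SltStmt) : LinStmt := by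
  intro r C hC K _ i
  exact ⟨fun l hl => ⟨partY hC hSlt i l hl, partY' hC hSlt i l hl, fun _ hy => partW hC i l hl hy⟩,
    fun b m => partE hC i b m⟩

end Pool.Agent.TMP.H47
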